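import Mathlib

set_option autoImplicit false

open Set Filter Topology Real

namespace Pool.Agent.H.MP_812062_gt

lemma diag {X : Type} [MetricSpace X] {φ : X → ℝ} (h1 : Continuous φ) (h2 : Function.Injective φ)
    {Z : Set (X × X)} (hZ : IsConnected Z) {a b : X × X} (ha : a ∈ Z) (hb : b ∈ Z)
    (h3 : φ a.1 ≤ φ a.2) (h4 : φ b.2 ≤ φ b.1) : ⨅ p ∈ Z, edist p.1 p.2 = 0 := by
  obtain ⟨p, hp, h⟩ := hZ.2.intermediate_value₂ ha hb (f := fun p => φ p.1) (g := fun p => φ p.2)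
    (by fun_prop) (by fun_prop) h3 h4
  exact le_zero_iff.1 ((iInf₂_le p hp).trans (edist_eq_zero.2 (h2 h)).le)

theorem main : ∃ (X : Type) (_ : MetricSpace X) (_ : ConnectedSpace X),
    (∀ Z : Set (X × X), IsConnected Z → Prod.fst '' Z = univ → ⨅ p ∈ Z, edist p.1 p.2 = 0) ∧
    ∃ Z : Set (X × X), IsConnected Z ∧ Prod.fst '' Z = Prod.snd '' Z ∧
      ⨅ p ∈ Z, edist p.1 p.2 ≠ 0 := by
  let γ : ℝ → ℝ × UnitAddCircle := fun t => (arctan t, t)
  have hγ : Continuous γ := continuous_arctan.prodMk (by fun_prop)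
  let S : Set (ℝ × UnitAddCircle) := insert (-(π / 2), 0) (insert (π / 2, 0) (range γ))
  have z : ∀ n : ℕ, ((n : ℝ) : UnitAddCircle) = 0 := fun n =>
    (AddCircle.coe_eq_zero_iff _).2 ⟨n, by simp⟩
  have hS : IsConnected S := (isConnected_range hγ).subset_closure (fun x hx => .inr (.inr hx)) (by
    rintro _ (rfl | rfl | h)
    · refine mem_closure_of_tendsto (f := fun n : ℕ => γ (-n)) (b := atTop)
        (Tendsto.prodMk_nhds ((tendsto_arctan_atBot.mono_right nhdsWithin_le_nhds).comp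
          (tendsto_neg_atTop_atBot.comp tendsto_natCast_atTop_atTop)) (by simp [z]))
        (Eventually.of_forall fun n => ⟨_, rfl⟩)
    · refine mem_closure_of_tendsto (f := fun n : ℕ => γ n) (b := atTop)
        (Tendsto.prodMk_nhds ((tendsto_arctan_atTop.mono_right nhdsWithin_le_nhds).comp
          tendsto_natCast_atTop_atTop) (by simp [z])) (Eventually.of_forall fun n => ⟨_, rfl⟩)
    · exact subset_closure h)
  have hp := pi_pos
  have b : ∀ x : S, -(π / 2) ≤ x.1.1 ∧ x.1.1 ≤ π / 2 := by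
    rintro ⟨_, rfl | rfl | ⟨t, rfl⟩⟩
    exacts [⟨le_rfl, by linarith⟩, ⟨by linarith, le_rfl⟩,
      ⟨(neg_pi_div_two_lt_arctan t).le, (arctan_lt_pi_div_two t).le⟩]
  let g : ℝ → S := fun t => ⟨γ t, .inr (.inr ⟨t, rfl⟩)⟩
  refine ⟨S, inferInstance, isConnected_iff_connectedSpace.1 hS, fun Z hZ h => ?_,
    range fun t => (g t, g (t + 1 / 2)), isConnected_range (by fun_prop), ?_, ?_⟩
  · obtain ⟨a, a1, a2⟩ := h.ge (mem_univ ⟨_, .inl rfl⟩)
    obtain ⟨c, c1, c2⟩ := h.ge (mem_univ ⟨_, .inr (.inl rfl)⟩)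
    refine diag (φ := fun x : S => x.1.1) (by fun_prop) ?_ hZ a1 c1 (a2 ▸ (b _).1) (c2 ▸ (b _).2)
    rintro ⟨_, rfl | rfl | ⟨t, rfl⟩⟩ ⟨_, rfl | rfl | ⟨s, rfl⟩⟩ k <;> simp only [γ] at k <;>
      first | rfl | linarith | linarith [neg_pi_div_two_lt_arctan s, arctan_lt_pi_div_two s] |
        rw [arctan_injective k] | linarith [neg_pi_div_two_lt_arctan t, arctan_lt_pi_div_two t]
  · rw [← range_comp, ← range_comp]
    exact ((add_right_surjective (1 / 2 : ℝ)).range_comp g).symm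
  · refine ne_of_gt (lt_of_lt_of_le (b := ENNReal.ofReal (1 / 2)) (by simp) (le_iInf₂ ?_))
    rintro _ ⟨t, rfl⟩
    rw [edist_dist]
    refine ENNReal.ofReal_le_ofReal (le_trans ?_ (le_max_right _ _))
    simpa [g, γ, dist_eq_norm] using (AddCircle.norm_half_period_eq (1 : ℝ)).ge

end Pool.Agent.H.MP_812062_gt
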